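import Pool.Agent.H31.StrongD2

set_option autoImplicit false

namespace Pool.Agent.Results.MP_e2e219_gt.Neg

open Pool.Agent.H31.SD

theorem result : ∃ (I : Type) (X : I → Type) (_ : ∀ i, TopologicalSpace (X i)),
    (∀ i, StrongD (X i)) ∧ ¬ StrongD (∀ i, X i) :=
  ⟨Bool, fun _ => Y, inferInstance, fun _ => strong, not_strong_pi⟩

end Pool.Agent.Results.MP_e2e219_gt.Neg
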